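import Pool.Agent.helper37.NA.Spec

/-! # Row NEG of project NA (MP_baa4d7_al): the subgroup `Eg p e z` (pure group theory) -/

set_option autoImplicit false

namespace Pool.Agent.NAB

open Pool.Agent.helper58.DC Pool.Agent.DI Pool.Agent.GR Pool.Agent.OB Pool.Agent.DR Pool.Agent.FI Pool.Agent.FI3 Pool.Agent.FI4 Pool.Agent.FI4I Pool.Agent.LE Pool.Agent.L5

theorem NEG_conj {G : Type} [Group G] (p e : ℕ) (z g : G) :
    Eg p e (g * z * g⁻¹) = cjS g (Eg p e z) := by
  unfold Eg cjS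
  rw [MonoidHom.map_zpowers, conj_pow]
  rfl

theorem NEG_le {G : Type} [Group G] (p e : ℕ) (z : G) (R : Subgroup G) :
    Eg p e z ≤ R ↔ z ^ p ^ (e - 1) ∈ R := by
  unfold Eg
  rw [Subgroup.zpowers_le]

/-- powers of `z * x` giving `z` and `x` -/
theorem NEG_pow {G : Type} [Group G] [Finite G] {p : ℕ} (hp : p.Prime) {z x : G} (hz : PEl p z) (hx : PReg p x)
    (hzx : z * x = x * z) : (∃ n : ℕ, (z * x) ^ n = z) ∧ ∃ n : ℕ, (z * x) ^ n = x := by
  obtain ⟨k, hk⟩ := hz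
  have hc : Nat.Coprime (orderOf z) (orderOf x) := by
    have h1 : orderOf z ∣ p ^ k := orderOf_dvd_of_pow_eq_one hk
    have h2 : Nat.Coprime (p ^ k) (orderOf x) := Nat.Coprime.pow_left k ((Nat.Prime.coprime_iff_not_dvd hp).2 hx)
    exact Nat.Coprime.coprime_dvd_left h1 h2
  have hcomm : Commute z x := hzx
  constructor
  · obtain ⟨N, hN1, hN2⟩ := Nat.chineseRemainder hc 1 0
    refine ⟨N, ?_⟩
    rw [hcomm.mul_pow]
    have h1 : z ^ N = z ^ 1 := pow_eq_pow_iff_modEq.2 hN1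
    have h2 : x ^ N = x ^ 0 := pow_eq_pow_iff_modEq.2 hN2
    rw [h1, h2, pow_one, pow_zero, mul_one]
  · obtain ⟨N, hN1, hN2⟩ := Nat.chineseRemainder hc 0 1
    refine ⟨N, ?_⟩
    rw [hcomm.mul_pow]
    have h1 : z ^ N = z ^ 0 := pow_eq_pow_iff_modEq.2 hN1
    have h2 : x ^ N = x ^ 1 := pow_eq_pow_iff_modEq.2 hN2
    rw [h1, h2, pow_one, pow_zero, one_mul]

theorem NEG_cz {G : Type} [Group G] (p e : ℕ) (z : G) :
    Subgroup.centralizer ({z} : Set G) ≤ cz (Eg p e z) := by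
  intro g hg
  rw [Subgroup.mem_centralizer_iff] at hg ⊢
  have h1 : z * g = g * z := hg z rfl
  have h2 : Commute z g := h1
  intro h hh
  obtain ⟨j, rfl⟩ := Subgroup.mem_zpowers_iff.1 hh
  exact ((h2.pow_left (p ^ (e - 1))).zpow_left j)

theorem NEG_nz {G : Type} [Group G] (D : Subgroup G) : cz D ≤ nz D := by
  intro x hx
  rw [Subgroup.mem_centralizer_iff] at hx
  rw [Subgroup.mem_normalizer_iff]
  intro d
  constructor
  · intro hd
    have h1 : x * d * x⁻¹ = d := by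
      rw [← hx d hd]
      group
    rw [h1]
    exact hd
  · intro hd
    have h1 := hx _ hd
    have h2 : x * d * x⁻¹ = d := by
      have h3 : x * d = x * (x * d * x⁻¹) := by
        rw [← h1]
        group
      have h4 : d = x * d * x⁻¹ := mul_left_cancel h3
      exact h4.symm
    rwa [h2] at hd

theorem NEG_mem {G : Type} [Group G] {L : Subgroup G} {y x : G} : x ∈ Cz L y ↔ x ∈ L ∧ y * x = x * y := by
  unfold Cz
  rw [Subgroup.mem_inf, Subgroup.mem_centralizer_iff]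
  constructor
  · rintro ⟨h, h'⟩
    exact ⟨h, h' y rfl⟩
  · rintro ⟨h, h'⟩
    refine ⟨h, fun z hz => ?_⟩
    rw [Set.mem_singleton_iff] at hz
    rw [hz]
    exact h'

theorem NEG_pgroup {G : Type} [Group G] {p : ℕ} (e : ℕ) {z : G} (hz : PEl p z) : IsPGroup p (Eg p e z) := by
  obtain ⟨k, hk⟩ := hz
  rintro ⟨h, hh⟩
  obtain ⟨j, rfl⟩ := Subgroup.mem_zpowers_iff.1 hh
  refine ⟨k, ?_⟩
  apply Subtype.ext
  change ((z ^ p ^ (e - 1)) ^ j) ^ p ^ k = 1
  rw [← zpow_natCast, ← zpow_mul, mul_comm, zpow_mul, zpow_natCast, ← pow_mul, mul_comm, pow_mul, hk, one_pow,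
    one_zpow]

theorem NEG_order {G : Type} [Group G] [Finite G] {p e : ℕ} (hp : p.Prime) {z : G} (he : 1 ≤ e)
    (hz : orderOf z = p ^ e) : Eg p e z ≠ ⊥ ∧ orderOf (z ^ p ^ (e - 1)) = p := by
  have h1 : orderOf (z ^ p ^ (e - 1)) = p := by
    have hpe : p ^ (e - 1) ≠ 0 := (pow_pos hp.pos _).ne'
    have hd : p ^ (e - 1) ∣ orderOf z := by
      rw [hz]
      exact pow_dvd_pow p (by omega)
    rw [orderOf_pow_of_dvd hpe hd, hz]
    have h2 : p ^ e = p ^ (e - 1) * p := by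
      rw [← pow_succ]
      congr 1
      omega
    rw [h2, Nat.mul_div_cancel_left _ (pow_pos hp.pos _)]
  refine ⟨?_, h1⟩
  intro h
  unfold Eg at h
  rw [Subgroup.zpowers_eq_bot] at h
  rw [h, orderOf_one] at h1
  exact hp.one_lt.ne h1

theorem NEG_sub {G : Type} [Group G] (p e : ℕ) (N : Subgroup G) (y : N) :
    (Eg p e (y : G)).subgroupOf N = Eg p e y := by
  ext w
  rw [Subgroup.mem_subgroupOf]
  unfold Eg
  rw [Subgroup.mem_zpowers_iff, Subgroup.mem_zpowers_iff]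
  constructor
  · rintro ⟨j, hj⟩
    refine ⟨j, ?_⟩
    apply Subtype.ext
    rw [← hj]
    simp
  · rintro ⟨j, hj⟩
    refine ⟨j, ?_⟩
    rw [← hj]
    simp

theorem NEG : NEG_stmt := by
  intro p e hp G _ _ z
  refine ⟨fun g => NEG_conj p e z g, ?_, fun R => NEG_le p e z R, ?_, ⟨NEG_cz p e z, NEG_nz _⟩,
    ⟨fun h => NEG_pgroup e h, fun he hz => NEG_order hp he hz⟩, fun N y => NEG_sub p e N y⟩
  · intro L hL
    rw [NEG_le]
    exact L.pow_mem hL _
  · intro x hz hx hzx L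
    obtain ⟨⟨n, hn⟩, ⟨n', hn'⟩⟩ := NEG_pow hp hz hx hzx
    have hA : Cz L (z * x) ≤ Cz L z := by
      intro g hg
      rw [NEG_mem] at hg ⊢
      refine ⟨hg.1, ?_⟩
      have h1 : Commute (z * x) g := hg.2
      have h2 := h1.pow_left n
      rw [hn] at h2
      exact h2
    refine ⟨hA, ?_, ?_, ?_⟩
    · intro g hg
      rw [NEG_mem] at hg ⊢
      refine ⟨hg.1, ?_⟩
      have h1 : Commute (z * x) g := hg.2
      have h2 := h1.pow_left n'
      rw [hn'] at h2
      exact h2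
    · intro g hg
      have h1 := hA hg
      apply NEG_nz
      apply NEG_cz
      unfold Cz at h1
      exact h1.2
    · intro h
      refine ⟨?_, ?_⟩
      · rw [← hn]
        exact L.pow_mem h _
      · rw [← hn']
        exact L.pow_mem h _

end Pool.Agent.NAB
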